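import Pool.Agent.helper21.OD.SpecB

set_option autoImplicit false

namespace Pool.Agent.OD

open MvPolynomial Matrix

theorem CFT_bin1 {R : Type*} [CommRing R] (x y : R) (j a : ℕ) (ha : a ≤ j) :
    y ^ a * (y - x) ^ (j - a) = ∑ s ∈ Finset.range (j + 1), (((-1) ^ s * ((j - a).choose s : ℤ) : ℤ) : R) * (x ^ s * y ^ (j - s)) := by
  have h1 : (y - x) ^ (j - a) = ∑ s ∈ Finset.range (j - a + 1), (-x) ^ s * y ^ (j - a - s) * ((j - a).choose s : R) := by
    rw [sub_eq_neg_add, add_pow]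
  rw [h1, Finset.mul_sum]
  have h2 : Finset.range (j - a + 1) ⊆ Finset.range (j + 1) := by
    intro s hs
    rw [Finset.mem_range] at hs ⊢
    omega
  rw [← Finset.sum_subset h2]
  · refine Finset.sum_congr rfl fun s hs => ?_
    rw [Finset.mem_range] at hs
    have e1 : j - s = a + (j - a - s) := by omega
    rw [e1, pow_add, neg_pow]
    push_cast
    ring
  · intro s _ hs
    rw [Finset.mem_range] at hs
    rw [Nat.choose_eq_zero_of_lt (by omega)]
    simp

theorem CFT_bin2 {R : Type*} [CommRing R] (x y : R) (j a : ℕ) (ha : a ≤ j) :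
    (y - x) ^ a * (-x) ^ (j - a) = ∑ s ∈ Finset.range (j + 1), (((-1) ^ s * (a.choose (j - s) : ℤ) : ℤ) : R) * (x ^ s * y ^ (j - s)) := by
  have h1 : (y - x) ^ a * (-x) ^ (j - a) = ∑ m ∈ Finset.range (j + 1), (((-1) ^ (j - m) * (a.choose m : ℤ) : ℤ) : R) * (x ^ (j - m) * y ^ m) := by
    rw [sub_eq_add_neg, add_pow, Finset.sum_mul]
    have h2 : Finset.range (a + 1) ⊆ Finset.range (j + 1) := by
      intro s hs
      rw [Finset.mem_range] at hs ⊢
      omega
    rw [← Finset.sum_subset h2]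
    · refine Finset.sum_congr rfl fun m hm => ?_
      rw [Finset.mem_range] at hm
      have e1 : j - m = (a - m) + (j - a) := by omega
      rw [e1, pow_add, pow_add, neg_pow x (a - m), neg_pow x (j - a)]
      push_cast
      ring
    · intro s _ hs
      rw [Finset.mem_range] at hs
      rw [Nat.choose_eq_zero_of_lt (by omega)]
      simp
  rw [h1, ← Finset.sum_range_reflect]
  refine Finset.sum_congr rfl fun s hs => ?_
  rw [Finset.mem_range] at hs
  have e1 : j + 1 - 1 - s = j - s := by omega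
  have e2 : j - (j - s) = s := by omega
  rw [e1, e2]

theorem CFT_cf_sum {κ ι : Type} [Field κ] (j a b : ℕ) (s : Finset ι) (P : ι → Pol κ) :
    cf (∑ i ∈ s, P i) j a b = ∑ i ∈ s, cf (P i) j a b := by
  unfold cf
  rw [coeff_sum]

theorem CFT_cf_C {κ : Type} [Field κ] (j a b : ℕ) (c : κ) (P : Pol κ) :
    cf (C c * P) j a b = c * cf P j a b := by
  unfold cf
  rw [coeff_C_mul]

/-- a double sum of monomials -/
theorem CFT_dbl {κ : Type} [Field κ] (h : EXQ_stmt) (j : ℕ) (u v : ℕ → ℤ) (s s' : ℕ) (hs : s ≤ j) (hs' : s' ≤ j) :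
    cf ((∑ a ∈ Finset.range (j + 1), ((u a : ℤ) : Pol κ) * (X 0 ^ a * X 1 ^ (j - a))) *
      (∑ b ∈ Finset.range (j + 1), ((v b : ℤ) : Pol κ) * (X 2 ^ b * X 3 ^ (j - b)))) j s s' = ((u s * v s' : ℤ) : κ) := by
  rw [Finset.sum_mul_sum, CFT_cf_sum]
  have h1 : ∀ a ∈ Finset.range (j + 1), cf (∑ b ∈ Finset.range (j + 1), ((u a : ℤ) : Pol κ) * (X 0 ^ a * X 1 ^ (j - a)) *
      (((v b : ℤ) : Pol κ) * (X 2 ^ b * X 3 ^ (j - b)))) j s s' =
      ∑ b ∈ Finset.range (j + 1), if a = s ∧ b = s' then ((u a * v b : ℤ) : κ) else 0 := by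
    intro a ha
    rw [CFT_cf_sum]
    refine Finset.sum_congr rfl fun b hb => ?_
    rw [Finset.mem_range] at ha hb
    have e1 : ((u a : ℤ) : Pol κ) * (X 0 ^ a * X 1 ^ (j - a)) * (((v b : ℤ) : Pol κ) * (X 2 ^ b * X 3 ^ (j - b))) =
        C ((u a * v b : ℤ) : κ) * mon j a b := by
      unfold mon
      rw [map_intCast]
      push_cast
      ring
    rw [e1, CFT_cf_C, (h j).2 a b s s' (by omega) (by omega) hs hs']
    split_ifs <;> simp
  rw [Finset.sum_congr rfl h1, Finset.sum_eq_single s]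
  · rw [Finset.sum_eq_single s']
    · rw [if_pos ⟨rfl, rfl⟩]
    · intro b _ hb
      rw [if_neg (fun h => hb h.2)]
    · intro h
      exact absurd (Finset.mem_range.2 (by omega)) h
  · intro a _ ha
    refine Finset.sum_eq_zero fun b _ => ?_
    rw [if_neg (fun h => ha h.1)]
  · intro h
    exact absurd (Finset.mem_range.2 (by omega)) h

/-- the general shape -/
theorem CFT_gen {t : ℤ} {κ : Type} [Field κ] (h : EXQ_stmt) (π : Oz t →+* κ) (g : Mat t) (j : ℕ) (P : Pol κ) (hP : BiHom j P)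
    (u : ℕ → ℕ → ℤ) (hg : ∀ a b, a ≤ j → b ≤ j → act π g (mon j a b) =
      (∑ s ∈ Finset.range (j + 1), ((u a s : ℤ) : Pol κ) * (X 0 ^ s * X 1 ^ (j - s))) *
      (∑ s ∈ Finset.range (j + 1), ((u b s : ℤ) : Pol κ) * (X 2 ^ s * X 3 ^ (j - s)))) (s s' : ℕ) (hs : s ≤ j) (hs' : s' ≤ j) :
    cf (act π g P) j s s' = ∑ a ∈ Finset.range (j + 1), ∑ b ∈ Finset.range (j + 1), ((u a s * u b s' : ℤ) : κ) * cf P j a b := by
  conv_lhs => rw [(h j).1 P hP]
  rw [map_sum, CFT_cf_sum]
  refine Finset.sum_congr rfl fun a ha => ?_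
  rw [map_sum, CFT_cf_sum]
  refine Finset.sum_congr rfl fun b hb => ?_
  rw [Finset.mem_range] at ha hb
  rw [map_mul, hg a b (by omega) (by omega), ← algebraMap_eq, AlgHom.commutes, algebraMap_eq, CFT_cf_C, CFT_dbl h j (u a) (u b) s s' hs hs', mul_comm]

theorem CFT (hEXQ : EXQ_stmt) : CFT_stmt := by
  intro t κ _ π j P hP s s' hs hs'
  constructor
  · rw [CFT_gen hEXQ π !![0, -1; 1, 1] j P hP (fun a s => (-1) ^ s * ((j - a).choose s : ℤ)) ?_ s s' hs hs']
    · refine Finset.sum_congr rfl fun a _ => Finset.sum_congr rfl fun b _ => ?_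
      push_cast
      rw [pow_add]
      ring
    · intro a b ha hb
      rw [← CFT_bin1 (X 0 : Pol κ) (X 1) j a ha, ← CFT_bin1 (X 2 : Pol κ) (X 3) j b hb]
      unfold mon
      simp only [map_mul, map_pow]
      simp [act]
      ring
  · rw [CFT_gen hEXQ π !![-1, -1; 1, 0] j P hP (fun a s => (-1) ^ s * (a.choose (j - s) : ℤ)) ?_ s s' hs hs']
    · refine Finset.sum_congr rfl fun a _ => Finset.sum_congr rfl fun b _ => ?_
      push_cast
      rw [pow_add]
      ring
    · intro a b ha hb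
      rw [← CFT_bin2 (X 0 : Pol κ) (X 1) j a ha, ← CFT_bin2 (X 2 : Pol κ) (X 3) j b hb]
      unfold mon
      simp only [map_mul, map_pow]
      simp [act]
      ring

end Pool.Agent.OD
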