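import Pool.Agent.helper21.OD.SpecA

set_option autoImplicit false

namespace Pool.Agent.OD

open MvPolynomial Matrix

theorem FCT_homL {A : Type} [CommRing A] (k : ℕ) (a b : A) :
    BiHom k ((X 1 - C a * X 0) ^ k * (X 3 - C b * X 2) ^ k : Pol A) := by
  have h (w : Fin 4 → ℕ) (i j : Fin 4) (c : A) (m : ℕ) (hi : w i = m) (hj : w j = m) :
      IsWeightedHomogeneous w (X i - C c * X j : Pol A) m := by
    have h1 : IsWeightedHomogeneous w (X i : Pol A) m := hi ▸ isWeightedHomogeneous_X A w i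
    have h2 : IsWeightedHomogeneous w (C c * X j : Pol A) m := by
      have h3 := (isWeightedHomogeneous_C w c).mul (isWeightedHomogeneous_X A w j)
      rwa [zero_add, hj] at h3
    exact (weightedHomogeneousSubmodule A w m).sub_mem h1 h2
  constructor
  · have h1 := ((h (![1, 1, 0, 0]) 1 0 a 1 rfl rfl).pow k).mul
      ((h (![1, 1, 0, 0]) 3 2 b 0 rfl rfl).pow k)
    simpa using h1
  · have h1 := ((h (![0, 0, 1, 1]) 1 0 a 0 rfl rfl).pow k).mul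
      ((h (![0, 0, 1, 1]) 3 2 b 1 rfl rfl).pow k)
    simpa using h1

theorem FCT_homU {t : ℤ} {κ : Type} [Field κ] (π : Oz t →+* κ) (ℓ k : ℕ)
    (ψ : Vec t → Vec t → κ) (u v : Vec t) : BiHom k (bU π ℓ k ψ u v) := by
  have h (w : Fin 4 → ℕ) (P : Pol κ) (hP : IsWeightedHomogeneous w P k) (c : κ) :
      C c * P ∈ weightedHomogeneousSubmodule κ w k := by
    rw [C_mul']
    exact (weightedHomogeneousSubmodule κ w k).smul_mem c hP
  constructor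
  · exact Submodule.sum_mem (weightedHomogeneousSubmodule κ _ k)
      fun x _ => h _ _ (FCT_homL k _ _).1 _
  · exact Submodule.sum_mem (weightedHomogeneousSubmodule κ _ k)
      fun x _ => h _ _ (FCT_homL k _ _).2 _

/-- `w ↦ bU k (evS w)` -/
noncomputable def FCT_LU {t : ℤ} {κ : Type} [Field κ] (π : Oz t →+* κ) (ℓ k : ℕ) :
    Sy t κ →ₗ[κ] Sy t κ where
  toFun w := bU π ℓ k (evS w)
  map_add' a b := by
    ext1 u; ext1 v
    simp [bU, evS, add_mul, Finset.sum_add_distrib]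
  map_smul' c a := by
    ext1 u; ext1 v
    simp [bU, evS, Finset.smul_sum, smul_eq_C_mul, mul_assoc]

/-- `w ↦ bT k (evS w)` -/
noncomputable def FCT_LT {t : ℤ} {κ : Type} [Field κ] (π : Oz t →+* κ) (ℓ k : ℕ) :
    Sy t κ →ₗ[κ] Sy t κ where
  toFun w := bT π ℓ k (evS w)
  map_add' a b := by
    ext1 u; ext1 v
    have h := congrFun (congrFun ((FCT_LU π ℓ k).map_add a b) u) v
    change bU π ℓ k (evS (a + b)) u v = bU π ℓ k (evS a) u v + bU π ℓ k (evS b) u v at h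
    simp only [bT, Pi.add_apply, h]
    simp only [evS, Pi.add_apply, map_add]
    ring
  map_smul' c a := by
    ext1 u; ext1 v
    have h := congrFun (congrFun ((FCT_LU π ℓ k).map_smul c a) u) v
    change bU π ℓ k (evS (c • a)) u v = c • bU π ℓ k (evS a) u v at h
    simp only [bT, Pi.smul_apply, RingHom.id_apply, h]
    simp only [evS, Pi.smul_apply, map_mul, smul_eq_C_mul, eval_C]
    ring

section

variable {t : ℤ} (ht : t = 0 ∨ t = 1) {ℓ : ℕ} (hℓ : ℓ.Prime) (hin : Prime ((ℓ : ℕ) : Oz t))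
  {κ : Type} [Field κ] (π : Oz t →+* κ) (hκ : ((ℓ : ℕ) : κ) = 0)

include ht hℓ hin hκ

omit hκ in
/-- the powers of `T` preserve level one -/
theorem FCT_T (hTST : TST_stmt) (k : ℕ) (w : Sy t κ) (hw : IsSym π k 1 (fun _ => 1) w) (s : ℕ) :
    IsSym π k 1 (fun _ => 1) (((opT π ℓ) ^ s) w) := by
  induction s with
  | zero => simpa using hw
  | succ s ih =>
    rw [pow_succ', Module.End.mul_apply]
    exact hTST t ht ℓ hℓ hin π k _ ih

/-- (i) `uS^s (evS w) = evS (T^s w)` -/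
theorem FCT_i (hFUT : FUT_stmt) (hTST : TST_stmt) (j : ℕ) (hj : 1 ≤ j) (w : Sy t κ)
    (hw : IsSym π j 1 (fun _ => 1) w) (s : ℕ) :
    (uS ℓ)^[s] (evS w) = evS (((opT π ℓ) ^ s) w) := by
  induction s with
  | zero => simp
  | succ s ih =>
    rw [Function.iterate_succ_apply', ih, pow_succ', Module.End.mul_apply]
    obtain ⟨_, hb, _, hd⟩ := hFUT t ℓ π hκ j
    rw [hb _ (FCT_T ht hℓ hin π hTST j w hw s), hd hj]

/-- (ii) `uS^(s+1) ψ = evS (T^s (bT j ψ))` -/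
theorem FCT_ii (hFUT : FUT_stmt) (hTST : TST_stmt) (hBJG : BJG_stmt) (j : ℕ) (hj : 1 ≤ j)
    (ψ : Vec t → Vec t → κ) (hψ : IsSc π j (ℓ ^ 1) ψ) (s : ℕ) :
    (uS ℓ)^[s + 1] ψ = evS (((opT π ℓ) ^ s) (bT π ℓ j ψ)) := by
  rw [Function.iterate_succ_apply]
  obtain ⟨_, _, _, hd⟩ := hFUT t ℓ π hκ j
  rw [← hd hj, FCT_i ht hℓ hin π hκ hFUT hTST j hj _ (hBJG t ht ℓ hℓ hin π hκ j ψ hψ)]

/-- the level of scalar symbols goes down -/
theorem FCT_low (hUSC : USC_stmt) (j r : ℕ) (ψ : Vec t → Vec t → κ)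
    (hψ : IsSc π j (ℓ ^ (r + 1)) ψ) : IsSc π j (ℓ ^ 1) ((uS ℓ)^[r] ψ) := by
  induction r generalizing ψ with
  | zero => simpa using hψ
  | succ r ih =>
    rw [Function.iterate_succ_apply]
    exact ih _ (hUSC t ht ℓ hℓ hin π hκ (r + 1) j (by omega) ψ hψ)

omit ht hℓ hin in
/-- (iii) -/
theorem FCT_iii (hFUT : FUT_stmt) (k : ℕ) (φ : Sy t κ) (hφ : ∀ u v, BiHom k (φ u v)) (s : ℕ) :
    ((opU π ℓ) ^ (s + 1)) φ = bU π ℓ k ((uS ℓ)^[s] (evS φ)) := by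
  obtain ⟨ha, _, hc, _⟩ := hFUT t ℓ π hκ k
  induction s with
  | zero => simpa using ha φ hφ
  | succ s ih =>
    rw [pow_succ', Module.End.mul_apply, ih, ha _ (FCT_homU π ℓ k _), hc,
      Function.iterate_succ_apply']

/-- (iv) -/
theorem FCT_iv (hFUT : FUT_stmt) (hTST : TST_stmt) (k : ℕ) (hk : 1 ≤ k) (φ : Sy t κ)
    (hφ : IsSym π k 1 (fun _ => 1) φ) (s : ℕ) :
    ((opT π ℓ) ^ (s + 1)) φ = bT π ℓ k ((uS ℓ)^[s] (evS φ)) := by
  rw [pow_succ', Module.End.mul_apply]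
  obtain ⟨_, hb, _, _⟩ := hFUT t ℓ π hκ k
  rw [hb _ (FCT_T ht hℓ hin π hTST k φ hφ s), FCT_i ht hℓ hin π hκ hFUT hTST k hk φ hφ s]

end

theorem FCT (hFUT : FUT_stmt) (hEVS : EVS_stmt) (hUSC : USC_stmt) (hBJG : BJG_stmt)
    (hTST : TST_stmt) (hKZE : KZE_stmt) : FCT_stmt := by
  intro t ht ℓ hℓ hℓ2 hin κ _ π hκ k r j χ hj hper hcls n
  rcases Nat.eq_zero_or_pos r with rfl | hr
  · have hχ : ∀ x, χ x = 1 := fun x => by
      rw [hper x 1 (by simp), map_one]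
    have hφ1 (φ : Sy t κ) (hφ : IsSym π k (ℓ ^ 0) χ φ) : IsSym π k 1 (fun _ => 1) φ := by
      have h1 : (χ : Oz t → κ) = fun _ => 1 := funext hχ
      rwa [h1, pow_zero] at hφ
    rcases Nat.eq_zero_or_pos k with rfl | hk
    · refine ⟨0, 0, fun φ hφ => ?_⟩
      have h2 : (2 : κ) ≠ 0 := by
        intro h2
        have hc : IsCoprime (2 : ℤ) (ℓ : ℤ) := by
          exact_mod_cast Nat.isCoprime_iff_coprime.2
            ((Nat.coprime_primes Nat.prime_two hℓ).2 (Ne.symm hℓ2))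
        obtain ⟨a, b, hab⟩ := hc
        have h3 := congrArg (Int.cast : ℤ → κ) hab
        push_cast at h3
        rw [h2, hκ] at h3
        simp at h3
      have h0 : φ = 0 := hKZE t ht π h2 φ (hφ1 φ hφ)
      rw [h0, map_zero]
      exact Submodule.zero_mem _
    · refine ⟨FCT_LT π ℓ k, n + 2, fun φ hφ => ?_⟩
      have hψ : IsSc π j (ℓ ^ 1) (evS φ) := hEVS t ht ℓ hℓ hin π hκ k 0 j χ hcls φ hφ
      refine ⟨((opT π ℓ) ^ n) (bT π ℓ j (evS φ)),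
        ⟨bT π ℓ j (evS φ), hBJG t ht ℓ hℓ hin π hκ j _ hψ, rfl⟩, ?_⟩
      change bT π ℓ k (evS (((opT π ℓ) ^ n) (bT π ℓ j (evS φ)))) = _
      rw [← FCT_ii ht hℓ hin π hκ hFUT hTST hBJG j hj _ hψ n,
        ← FCT_iv ht hℓ hin π hκ hFUT hTST k hk φ (hφ1 φ hφ) (n + 1)]
      rw [op, if_pos rfl]
  · obtain ⟨r, rfl⟩ : ∃ r', r = r' + 1 := ⟨r - 1, by omega⟩
    refine ⟨FCT_LU π ℓ k, (n + 1 + r) + 1, fun φ hφ => ?_⟩
    have hψ : IsSc π j (ℓ ^ (r + 1)) (evS φ) := by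
      have h := hEVS t ht ℓ hℓ hin π hκ k (r + 1) j χ hcls φ hφ
      rwa [max_eq_left (by omega)] at h
    have hψ' := FCT_low ht hℓ hin π hκ hUSC j r _ hψ
    refine ⟨((opT π ℓ) ^ n) (bT π ℓ j ((uS ℓ)^[r] (evS φ))),
      ⟨bT π ℓ j ((uS ℓ)^[r] (evS φ)), hBJG t ht ℓ hℓ hin π hκ j _ hψ', rfl⟩, ?_⟩
    change bU π ℓ k (evS (((opT π ℓ) ^ n) (bT π ℓ j ((uS ℓ)^[r] (evS φ))))) = _
    rw [← FCT_ii ht hℓ hin π hκ hFUT hTST hBJG j hj _ hψ' n, ← Function.iterate_add_apply,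
      ← FCT_iii π hκ hFUT k φ hφ.hom (n + 1 + r)]
    rw [op, if_neg (by omega)]

end Pool.Agent.OD
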